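import Mathlib

/-!
# A three-dimensional algebra without a finite basis of identities

Over every infinite field `K` the three-dimensional algebra with basis `a, b, v` and nonzero
products `a a = v`, `b a = b`, `v b = v` has no finite basis of polynomial identities.
-/

universe u v

namespace Pool.Agent.Results.MP_c03fb1_al.ThreeDim

open Polynomial

/-- `f = 0` is a polynomial identity of the (not necessarily associative) `K`-algebra `A`. -/
def IsIdentity (K : Type u) [Field K] (A : Type v) [NonUnitalNonAssocRing A] [Module K A]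
    [IsScalarTower K A A] [SMulCommClass K A A] (f : FreeNonUnitalNonAssocAlgebra K ℕ) : Prop :=
  ∀ x : ℕ → A, FreeNonUnitalNonAssocAlgebra.lift K x f = 0

/-- `A` has a finite basis of identities: there is a finite set `S` of identities of `A` such that
every identity of `A` holds in every `K`-algebra satisfying all identities from `S`. -/
def FinitelyBased (K : Type u) [Field K] (A : Type u) [NonUnitalNonAssocRing A] [Module K A]
    [IsScalarTower K A A] [SMulCommClass K A A] : Prop :=
  ∃ S : Finset (FreeNonUnitalNonAssocAlgebra K ℕ), (∀ f ∈ S, IsIdentity K A f) ∧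
    ∀ g : FreeNonUnitalNonAssocAlgebra K ℕ, IsIdentity K A g →
      ∀ (B : Type u) [NonUnitalNonAssocRing B] [Module K B] [IsScalarTower K B B]
        [SMulCommClass K B B], (∀ f ∈ S, IsIdentity K B f) → IsIdentity K B g

/-! ### The three-dimensional algebra, with coefficients in a commutative ring -/

/-- The algebra `C a ⊕ C b ⊕ C v` with `a a = v`, `b a = b`, `v b = v`. -/
def T3 (C : Type v) : Type v := C × C × C

namespace T3

instance (C : Type v) [CommRing C] : AddCommGroup (T3 C) := inferInstanceAs (AddCommGroup (C × C × C))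

instance (C : Type v) [CommRing C] : Mul (T3 C) :=
  ⟨fun x y => (0, x.2.1 * y.1, x.2.2 * y.2.1 + x.1 * y.1)⟩

theorem ext' {C : Type v} {x y : T3 C} (h1 : x.1 = y.1) (h2 : x.2.1 = y.2.1)
    (h3 : x.2.2 = y.2.2) : x = y :=
  Prod.ext h1 (Prod.ext h2 h3)

section
variable {C : Type v} [CommRing C]

@[simp] theorem mul_1 (x y : T3 C) : (x * y).1 = 0 := rfl
@[simp] theorem mul_2 (x y : T3 C) : (x * y).2.1 = x.2.1 * y.1 := rfl
@[simp] theorem mul_3 (x y : T3 C) : (x * y).2.2 = x.2.2 * y.2.1 + x.1 * y.1 := rfl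
@[simp] theorem add_1 (x y : T3 C) : (x + y).1 = x.1 + y.1 := rfl
@[simp] theorem add_2 (x y : T3 C) : (x + y).2.1 = x.2.1 + y.2.1 := rfl
@[simp] theorem add_3 (x y : T3 C) : (x + y).2.2 = x.2.2 + y.2.2 := rfl
@[simp] theorem zero_1 : (0 : T3 C).1 = 0 := rfl
@[simp] theorem zero_2 : (0 : T3 C).2.1 = 0 := rfl
@[simp] theorem zero_3 : (0 : T3 C).2.2 = 0 := rfl

end

instance (C : Type v) [CommRing C] : NonUnitalNonAssocRing (T3 C) :=
  { (inferInstance : AddCommGroup (T3 C)), (inferInstance : Mul (T3 C)) with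
    left_distrib := fun x y z => ext' (by simp) (by simp; ring) (by simp; ring)
    right_distrib := fun x y z => ext' (by simp) (by simp; ring) (by simp; ring)
    zero_mul := fun x => ext' (by simp) (by simp) (by simp)
    mul_zero := fun x => ext' (by simp) (by simp) (by simp) }

section
variable {K : Type u} [Field K] {C : Type v} [CommRing C] [Algebra K C]

instance : Module K (T3 C) := inferInstanceAs (Module K (C × C × C))

@[simp] theorem smul_1 (c : K) (x : T3 C) : (c • x).1 = c • x.1 := rfl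
@[simp] theorem smul_2 (c : K) (x : T3 C) : (c • x).2.1 = c • x.2.1 := rfl
@[simp] theorem smul_3 (c : K) (x : T3 C) : (c • x).2.2 = c • x.2.2 := rfl

instance : IsScalarTower K (T3 C) (T3 C) :=
  ⟨fun c x y => ext' (by simp) (by simp) (by simp [smul_add])⟩

instance : SMulCommClass K (T3 C) (T3 C) :=
  ⟨fun c x y => ext' (by simp) (by simp) (by simp [smul_add])⟩

/-- coordinate functions -/
def c1 : T3 C →ₗ[K] C := LinearMap.fst K C (C × C)
def c2 : T3 C →ₗ[K] C := (LinearMap.fst K C C).comp (LinearMap.snd K C (C × C))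
def c3 : T3 C →ₗ[K] C := (LinearMap.snd K C C).comp (LinearMap.snd K C (C × C))

end

/-- functoriality in the coefficients -/
def map {K : Type u} [Field K] {C D : Type*} [CommRing C] [Algebra K C] [CommRing D] [Algebra K D]
    (φ : C →ₐ[K] D) : T3 C →ₙₐ[K] T3 D where
  toFun x := (φ x.1, φ x.2.1, φ x.2.2)
  map_smul' c x := ext' (by simp) (by simp) (by simp)
  map_zero' := ext' (by simp) (by simp) (by simp)
  map_add' x y := ext' (by simp) (by simp) (by simp)
  map_mul' x y := ext' (by simp) (by simp) (by simp)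

end T3

/-! ### Evaluation of words -/

section Eval
variable {K : Type u} [Field K] {A : Type v} [NonUnitalNonAssocRing A] [Module K A]
    [IsScalarTower K A A] [SMulCommClass K A A]

/-- value of a word -/
def ev (x : ℕ → A) (M : FreeMagma ℕ) : A := FreeMagma.lift x M

@[simp] theorem ev_of (x : ℕ → A) (i : ℕ) : ev x (FreeMagma.of i) = x i := rfl

@[simp] theorem ev_mul (x : ℕ → A) (p q : FreeMagma ℕ) : ev x (p * q) = ev x p * ev x q := rfl

theorem lift_eq_sum (x : ℕ → A) (f : FreeNonUnitalNonAssocAlgebra K ℕ) :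
    FreeNonUnitalNonAssocAlgebra.lift K x f = f.coeff.sum (fun M c => c • ev x M) := by
  rfl

theorem apply_lift {D : Type*} [AddCommGroup D] [Module K D] (φ : A →ₗ[K] D) (x : ℕ → A)
    (f : FreeNonUnitalNonAssocAlgebra K ℕ) :
    φ (FreeNonUnitalNonAssocAlgebra.lift K x f) = f.coeff.sum (fun M c => c • φ (ev x M)) := by
  rw [lift_eq_sum, map_finsuppSum]
  simp

end Eval

theorem map_lift {K : Type u} [Field K] {C D : Type*} [CommRing C] [Algebra K C] [CommRing D]
    [Algebra K D] (φ : C →ₐ[K] D) (g : ℕ → T3 C) (f : FreeNonUnitalNonAssocAlgebra K ℕ) :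
    T3.map φ (FreeNonUnitalNonAssocAlgebra.lift K g f) =
      FreeNonUnitalNonAssocAlgebra.lift K (fun i => T3.map φ (g i)) f := by
  have : (T3.map φ).comp (FreeNonUnitalNonAssocAlgebra.lift K g) =
      FreeNonUnitalNonAssocAlgebra.lift K (fun i => T3.map φ (g i)) := by
    apply FreeNonUnitalNonAssocAlgebra.hom_ext
    intro i
    simp
  exact DFunLike.congr_fun this f

/-- base change: an identity of the three-dimensional algebra over an infinite field holds
with coefficients in any commutative `K`-algebra -/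
theorem base_change {K : Type u} [Field K] [Infinite K] {f : FreeNonUnitalNonAssocAlgebra K ℕ}
    (hf : IsIdentity K (T3 K) f) (C : Type v) [CommRing C] [Algebra K C] :
    IsIdentity K (T3 C) f := by
  -- generic element
  let g : ℕ → T3 (MvPolynomial (ℕ × Fin 3) K) :=
    fun i => (MvPolynomial.X (i, 0), MvPolynomial.X (i, 1), MvPolynomial.X (i, 2))
  have hg : FreeNonUnitalNonAssocAlgebra.lift K g f = 0 := by
    have h : ∀ y : ℕ × Fin 3 → K,
        T3.map (MvPolynomial.aeval y) (FreeNonUnitalNonAssocAlgebra.lift K g f) = 0 := by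
      intro y
      rw [map_lift]
      exact hf _
    apply T3.ext'
    · apply MvPolynomial.funext
      intro y
      have := congrArg (fun z : T3 K => z.1) (h y)
      simpa [T3.map, MvPolynomial.aeval_eq_eval] using this
    · apply MvPolynomial.funext
      intro y
      have := congrArg (fun z : T3 K => z.2.1) (h y)
      simpa [T3.map, MvPolynomial.aeval_eq_eval] using this
    · apply MvPolynomial.funext
      intro y
      have := congrArg (fun z : T3 K => z.2.2) (h y)
      simpa [T3.map, MvPolynomial.aeval_eq_eval] using this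
  intro x
  let y : ℕ × Fin 3 → C := fun p => ![(x p.1).1, (x p.1).2.1, (x p.1).2.2] p.2
  have h2 := map_lift (MvPolynomial.aeval y : MvPolynomial (ℕ × Fin 3) K →ₐ[K] C) g f
  rw [hg, map_zero] at h2
  rw [h2]
  congr 1
  congr 1
  funext i
  apply T3.ext' <;> simp [T3.map, g, y]

/-! ### The test algebras -/

/-- The test algebra: elements `(α, β, p, τ)` with `α, β, τ` in `K` and `p` a polynomial. -/
def BN (K : Type u) [Field K] (_N : ℕ) : Type u := K × K × K[X] × K

namespace BN

variable {K : Type u} [Field K] {N : ℕ}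

noncomputable instance : AddCommGroup (BN K N) := inferInstanceAs (AddCommGroup (K × K × K[X] × K))
noncomputable instance : Module K (BN K N) := inferInstanceAs (Module K (K × K × K[X] × K))

noncomputable instance : Mul (BN K N) :=
  ⟨fun x y => (0, 0, X * (C y.2.1 * x.2.2.1 + C (x.1 * y.1)),
    x.2.2.1.coeff 0 * y.2.2.1.coeff N)⟩

@[simp] theorem mul_1 (x y : BN K N) : (x * y).1 = 0 := rfl
@[simp] theorem mul_2 (x y : BN K N) : (x * y).2.1 = 0 := rfl
@[simp] theorem mul_3 (x y : BN K N) :
    (x * y).2.2.1 = X * (C y.2.1 * x.2.2.1 + C (x.1 * y.1)) := rfl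
@[simp] theorem mul_4 (x y : BN K N) :
    (x * y).2.2.2 = x.2.2.1.coeff 0 * y.2.2.1.coeff N := rfl
@[simp] theorem add_1 (x y : BN K N) : (x + y).1 = x.1 + y.1 := rfl
@[simp] theorem add_2 (x y : BN K N) : (x + y).2.1 = x.2.1 + y.2.1 := rfl
@[simp] theorem add_3 (x y : BN K N) : (x + y).2.2.1 = x.2.2.1 + y.2.2.1 := rfl
@[simp] theorem add_4 (x y : BN K N) : (x + y).2.2.2 = x.2.2.2 + y.2.2.2 := rfl
@[simp] theorem zero_1 : (0 : BN K N).1 = 0 := rfl
@[simp] theorem zero_2 : (0 : BN K N).2.1 = 0 := rfl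
@[simp] theorem zero_3 : (0 : BN K N).2.2.1 = 0 := rfl
@[simp] theorem zero_4 : (0 : BN K N).2.2.2 = 0 := rfl
@[simp] theorem smul_1 (c : K) (x : BN K N) : (c • x).1 = c * x.1 := rfl
@[simp] theorem smul_2 (c : K) (x : BN K N) : (c • x).2.1 = c * x.2.1 := rfl
@[simp] theorem smul_3 (c : K) (x : BN K N) : (c • x).2.2.1 = c • x.2.2.1 := rfl
@[simp] theorem smul_4 (c : K) (x : BN K N) : (c • x).2.2.2 = c * x.2.2.2 := rfl

theorem ext' {x y : BN K N} (h1 : x.1 = y.1) (h2 : x.2.1 = y.2.1) (h3 : x.2.2.1 = y.2.2.1)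
    (h4 : x.2.2.2 = y.2.2.2) : x = y :=
  Prod.ext h1 (Prod.ext h2 (Prod.ext h3 h4))

noncomputable instance : NonUnitalNonAssocRing (BN K N) :=
  { (inferInstance : AddCommGroup (BN K N)), (inferInstance : Mul (BN K N)) with
    left_distrib := fun x y z => ext' (by simp) (by simp) (by simp; ring) (by simp; ring)
    right_distrib := fun x y z => ext' (by simp) (by simp) (by simp; ring) (by simp; ring)
    zero_mul := fun x => ext' (by simp) (by simp) (by simp) (by simp)
    mul_zero := fun x => ext' (by simp) (by simp) (by simp) (by simp) }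

instance : IsScalarTower K (BN K N) (BN K N) :=
  ⟨fun c x y => ext' (by simp) (by simp)
    (by simp only [smul_eq_mul, mul_3, smul_1, smul_3, smul_eq_C_mul, C_mul]; ring)
    (by simp only [smul_eq_mul, mul_4, smul_3, smul_4, coeff_smul]; ring)⟩

instance : SMulCommClass K (BN K N) (BN K N) :=
  ⟨fun c x y => ext' (by simp) (by simp)
    (by simp only [smul_eq_mul, mul_3, smul_1, smul_2, smul_3, smul_eq_C_mul, C_mul]; ring)
    (by simp only [smul_eq_mul, mul_4, smul_3, smul_4, coeff_smul]; ring)⟩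

/-- coordinate functions -/
noncomputable def d1 : BN K N →ₗ[K] K := LinearMap.fst K K (K × K[X] × K)
noncomputable def d2 : BN K N →ₗ[K] K := (LinearMap.fst K K (K[X] × K)).comp (LinearMap.snd K K (K × K[X] × K))
noncomputable def d3 : BN K N →ₗ[K] K[X] := ((LinearMap.fst K K[X] K).comp
  (LinearMap.snd K K (K[X] × K))).comp (LinearMap.snd K K (K × K[X] × K))
noncomputable def d4 : BN K N →ₗ[K] K := ((LinearMap.snd K K[X] K).comp
  (LinearMap.snd K K (K[X] × K))).comp (LinearMap.snd K K (K × K[X] × K))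

end BN

section Main

variable {K : Type u} [Field K] {N : ℕ}

theorem word_cases (q : FreeMagma ℕ) : (∃ i, q = FreeMagma.of i) ∨ ∃ a b, q = a * b := by
  induction q using FreeMagma.recOnMul with
  | ih1 i => exact Or.inl ⟨i, rfl⟩
  | ih2 a b _ _ => exact Or.inr ⟨a, b, rfl⟩

/-- labels with only an `a`-component -/
def gen (t : ℕ → K) : ℕ → T3 K := fun i => (t i, 0, 0)

theorem part1 {f : FreeNonUnitalNonAssocAlgebra K ℕ} (hf : IsIdentity K (T3 K) f)
    (x : ℕ → BN K N) : (FreeNonUnitalNonAssocAlgebra.lift K x f).1 = 0 := by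
  have h1 := apply_lift (BN.d1) x f
  have h2 := apply_lift (K := K) (T3.c1 (C := K)) (gen fun i => (x i).1) f
  rw [hf] at h2
  have h3 : (f.coeff.sum fun M c => c • BN.d1 (ev x M)) =
      f.coeff.sum fun M c => c • (T3.c1 (K := K)) (ev (gen fun i => (x i).1) M) := by
    apply Finsupp.sum_congr
    intro M _
    rcases word_cases M with ⟨i, rfl⟩ | ⟨a, b, rfl⟩ <;> rfl
  rw [h3, ← h2, map_zero] at h1
  exact h1

theorem part2 {f : FreeNonUnitalNonAssocAlgebra K ℕ} (hf : IsIdentity K (T3 K) f)
    (x : ℕ → BN K N) : (FreeNonUnitalNonAssocAlgebra.lift K x f).2.1 = 0 := by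
  have h1 := apply_lift (BN.d2) x f
  have h2 := apply_lift (K := K) (T3.c1 (C := K)) (gen fun i => (x i).2.1) f
  rw [hf] at h2
  have h3 : (f.coeff.sum fun M c => c • BN.d2 (ev x M)) =
      f.coeff.sum fun M c => c • (T3.c1 (K := K)) (ev (gen fun i => (x i).2.1) M) := by
    apply Finsupp.sum_congr
    intro M _
    rcases word_cases M with ⟨i, rfl⟩ | ⟨a, b, rfl⟩ <;> rfl
  rw [h3, ← h2, map_zero] at h1
  exact h1

/-- the labels used for the polynomial component -/
noncomputable def lab3 (x : ℕ → BN K N) (i : ℕ) : T3 K[X][X] :=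
  (X * C (C (x i).1 * X), C (C (x i).2.1 * X), X ^ 2 * C (X * (x i).2.2.1))

theorem lab3_spec (x : ℕ → BN K N) (M : FreeMagma ℕ) :
    (ev (lab3 x) M).1 = X * C (C (ev x M).1 * X) ∧
    (∃ r : K[X][X], (ev (lab3 x) M).2.1 = C (C (ev x M).2.1 * X) + X * r) ∧
    ∃ r : K[X][X], (ev (lab3 x) M).2.2 = X ^ 2 * C (X * (ev x M).2.2.1) + X ^ 3 * r := by
  induction M using FreeMagma.recOnMul with
  | ih1 i => exact ⟨rfl, ⟨0, by simp [lab3]⟩, ⟨0, by simp [lab3]⟩⟩
  | ih2 p q hp hq =>
    obtain ⟨a1, ⟨r1, b1⟩, ⟨s1, c1⟩⟩ := hp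
    obtain ⟨a2, ⟨r2, b2⟩, ⟨s2, c2⟩⟩ := hq
    refine ⟨by simp, ⟨(C (C (ev x p).2.1 * X) + X * r1) * C (C (ev x q).1 * X), ?_⟩,
      ⟨C (X * (ev x p).2.2.1) * r2 + s1 * (C (C (ev x q).2.1 * X) + X * r2), ?_⟩⟩
    · simp only [ev_mul, T3.mul_2, BN.mul_2, b1, a2]
      simp
      ring
    · simp only [ev_mul, T3.mul_3, BN.mul_3, b2, c1, a1, a2]
      simp only [map_mul, map_add]
      ring

theorem part3 [Infinite K] {f : FreeNonUnitalNonAssocAlgebra K ℕ}
    (hf : IsIdentity K (T3 K) f) (x : ℕ → BN K N) :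
    (FreeNonUnitalNonAssocAlgebra.lift K x f).2.2.1 = 0 := by
  have h1 := apply_lift (BN.d3) x f
  let φ : T3 K[X][X] →ₗ[K] K[X] :=
    ((Polynomial.lcoeff K[X] 2).restrictScalars K).comp (T3.c3 (K := K))
  have h2 := apply_lift φ (lab3 x) f
  rw [base_change hf K[X][X]] at h2
  have h3 : (f.coeff.sum fun M c => c • φ (ev (lab3 x) M)) =
      f.coeff.sum fun M c => X * (c • (BN.d3 (ev x M))) := by
    apply Finsupp.sum_congr
    intro M _
    obtain ⟨_, _, ⟨r, hr⟩⟩ := lab3_spec x M
    have : φ (ev (lab3 x) M) = ((ev (lab3 x) M).2.2).coeff 2 := rfl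
    rw [this, hr]
    have h5 : (X ^ 2 * C (X * (ev x M).2.2.1) + X ^ 3 * r : K[X][X]).coeff 2 =
        X * (ev x M).2.2.1 := by
      rw [coeff_add, coeff_X_pow_mul', coeff_X_pow_mul']
      simp
    rw [h5, mul_smul_comm]
    rfl
  rw [h3, map_zero, ← Finsupp.mul_sum, ← h1] at h2
  have h4 := h2.symm
  rw [mul_eq_zero] at h4
  rcases h4 with h4 | h4
  · exact absurd h4 X_ne_zero
  · exact h4

/-- the labels used for the last component -/
noncomputable def lab4 (x : ℕ → BN K N) (i : ℕ) : T3 K[X][X] :=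
  (C (C (x i).2.1 * X), X * C (x i).2.2.1, C (C ((x i).2.2.1.coeff 0)))

noncomputable def lab5 (x : ℕ → BN K N) (i : ℕ) : T3 K[X][X] :=
  (C (C (x i).2.1 * X), X * C (x i).2.2.1, 0)

theorem lab4_spec (x : ℕ → BN K N) (M : FreeMagma ℕ) :
    (ev (lab4 x) M).1 = C (C (ev x M).2.1 * X) ∧
    (ev (lab5 x) M).1 = C (C (ev x M).2.1 * X) ∧
    (∃ L : K[X], (ev (lab4 x) M).2.1 = X * C L ∧ (ev (lab5 x) M).2.1 = X * C L ∧
      ∃ c : K, (ev x M).2.2.1 = L + C c * X ^ (M.length - 1)) ∧
    ∃ (t : K[X]) (r : K[X][X]), (ev (lab4 x) M).2.2 - (ev (lab5 x) M).2.2 =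
      C (C ((ev x M).2.2.1.coeff 0)) + X * C t + X ^ 2 * r ∧
      (M.length ≤ N + 1 → t.coeff N =
        (ev x M).2.2.2 - (ev (gen fun i => (x i).2.2.2) M).1) := by
  induction M using FreeMagma.recOnMul with
  | ih1 i =>
    refine ⟨rfl, rfl, ⟨(x i).2.2.1, rfl, rfl, 0, by simp⟩, 0, 0, by simp [lab4, lab5], ?_⟩
    intro _
    simp [gen]
  | ih2 p q hp hq =>
    obtain ⟨a1, a1', ⟨L1, b1, b1', e1, f1⟩, t1, r1, d1, _⟩ := hp
    obtain ⟨a2, a2', ⟨L2, b2, b2', e2, f2⟩, t2, r2, d2, _⟩ := hq
    refine ⟨by simp, by simp, ⟨L1 * (C (ev x q).2.1 * X), ?_, ?_, ?_⟩,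
      C ((ev x p).2.2.1.coeff 0) * L2, (C t1 + X * r1) * C L2, ?_, ?_⟩
    · simp only [ev_mul, T3.mul_2, b1, a2, map_mul]; ring
    · simp only [ev_mul, T3.mul_2, b1', a2', map_mul]; ring
    · rcases word_cases q with ⟨j, rfl⟩ | ⟨q1, q2, rfl⟩
      · rcases word_cases p with ⟨i, rfl⟩ | ⟨p1, p2, rfl⟩
        · refine ⟨(x j).2.1 * e1 + (x i).1 * (x j).1, ?_⟩
          simp only [ev_mul, BN.mul_3, ev_of]
          simp only [ev_of] at f1
          simp only [f1, FreeMagma.length, map_add, map_mul]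
          simp
          ring
        · refine ⟨(x j).2.1 * e1, ?_⟩
          have hl : (p1 * p2).length = (p1 * p2).length - 1 + 1 := by
            have := FreeMagma.length_pos (p1 * p2)
            omega
          have hl2 : (p1 * p2 * FreeMagma.of j).length - 1 = (p1 * p2).length - 1 + 1 := by
            show (p1 * p2).length + 1 - 1 = _
            omega
          rw [hl2]
          have h00 : (ev x (p1 * p2)).1 = 0 := rfl
          show X * (C (x j).2.1 * (ev x (p1 * p2)).2.2.1 + C ((ev x (p1 * p2)).1 * (x j).1)) = _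
          rw [f1, h00, ev_of]
          simp only [zero_mul, map_zero, add_zero, map_mul]
          ring
      · refine ⟨0, ?_⟩
        simp
    · have : (ev (lab4 x) (p * q)).2.2 - (ev (lab5 x) (p * q)).2.2 =
          ((ev (lab4 x) p).2.2 - (ev (lab5 x) p).2.2) * (X * C L2) := by
        simp only [ev_mul, T3.mul_3, b2, b2', a1, a1', a2, a2']
        ring
      rw [this, d1]
      simp only [ev_mul, BN.mul_3, map_mul]
      have h0 : (X * (C (ev x q).2.1 * (ev x p).2.2.1 + C ((ev x p).1 * (ev x q).1)) : K[X]).coeff 0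
          = 0 := by simp
      simp only [map_mul] at h0
      rw [h0]
      simp only [map_zero]
      ring
    · intro hlen
      have hp1 := FreeMagma.length_pos p
      have hq1 := FreeMagma.length_pos q
      have hl : (p * q).length = p.length + q.length := rfl
      simp only [ev_mul, BN.mul_4, T3.mul_1, sub_zero, f2, coeff_C_mul, coeff_add, coeff_X_pow]
      rw [if_neg (by omega)]
      simp

theorem part4 [Infinite K] {f : FreeNonUnitalNonAssocAlgebra K ℕ}
    (hf : IsIdentity K (T3 K) f) (hd : ∀ M ∈ f.coeff.support, M.length ≤ N + 1)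
    (x : ℕ → BN K N) :
    (FreeNonUnitalNonAssocAlgebra.lift K x f).2.2.2 = 0 := by
  have h1 := apply_lift (BN.d4) x f
  let φ : T3 K[X][X] →ₗ[K] K :=
    ((Polynomial.lcoeff K N).comp ((Polynomial.lcoeff K[X] 1).restrictScalars K)).comp
      (T3.c3 (K := K))
  have h2 := apply_lift φ (lab4 x) f
  have h2' := apply_lift φ (lab5 x) f
  have h5 := apply_lift (K := K) (T3.c1 (C := K)) (gen fun i => (x i).2.2.2) f
  rw [base_change hf K[X][X], map_zero] at h2 h2'
  rw [hf, map_zero] at h5
  have h3 : (f.coeff.sum fun M c => c • BN.d4 (ev x M)) =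
      ((f.coeff.sum fun M c => c • φ (ev (lab4 x) M)) -
        (f.coeff.sum fun M c => c • φ (ev (lab5 x) M))) +
      f.coeff.sum fun M c => c • (T3.c1 (K := K))
        (ev (gen fun i => (x i).2.2.2) M) := by
    unfold Finsupp.sum
    rw [← Finset.sum_sub_distrib, ← Finset.sum_add_distrib]
    apply Finset.sum_congr rfl
    intro M hM
    obtain ⟨_, _, _, t, r, h6, h7⟩ := lab4_spec x M
    have h8 := h7 (hd M hM)
    have h9 : φ (ev (lab4 x) M) - φ (ev (lab5 x) M) = t.coeff N := by
      have : φ (ev (lab4 x) M) - φ (ev (lab5 x) M) =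
          (((ev (lab4 x) M).2.2 - (ev (lab5 x) M).2.2).coeff 1).coeff N := by
        rw [coeff_sub, coeff_sub]; rfl
      rw [this, h6]
      congr 1
      rw [coeff_add, coeff_add, coeff_X_pow_mul']
      simp
    have h10 : (T3.c1 (K := K)) (ev (gen fun i => (x i).2.2.2) M) =
      (ev (gen fun i => (x i).2.2.2) M).1 := rfl
    rw [← smul_sub, ← smul_add, h9, h8, h10]
    show f.coeff M * (ev x M).2.2.2 = f.coeff M * ((ev x M).2.2.2 - _ + _)
    ring
  rw [h3, ← h2, ← h2', ← h5, sub_zero, add_zero] at h1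
  exact h1

theorem test_algebra [Infinite K] {f : FreeNonUnitalNonAssocAlgebra K ℕ}
    (hf : IsIdentity K (T3 K) f) (hd : ∀ M ∈ f.coeff.support, M.length ≤ N + 1) :
    IsIdentity K (BN K N) f := fun x =>
  BN.ext' (part1 hf x) (part2 hf x) (part3 hf x) (part4 hf hd x)

end Main

/-! ### The identities that are not consequences -/

section Witness

variable (K : Type u) [Field K]

/-- a variable -/
noncomputable def V (i : ℕ) : FreeNonUnitalNonAssocAlgebra K ℕ :=
  FreeNonUnitalNonAssocAlgebra.of K i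

/-- `(x y) z - (x z) y`, multiplied `k` times by `u` on the right -/
noncomputable def h : ℕ → FreeNonUnitalNonAssocAlgebra K ℕ
  | 0 => (V K 0 * V K 1) * V K 2 - (V K 0 * V K 2) * V K 1
  | k + 1 => h k * V K 3

/-- the identity `t (((x y) z - (x z) y) u ... u) = 0` -/
noncomputable def g (k : ℕ) : FreeNonUnitalNonAssocAlgebra K ℕ := V K 4 * h K k

variable {K}

theorem lift_V {A : Type v} [NonUnitalNonAssocRing A] [Module K A] [IsScalarTower K A A]
    [SMulCommClass K A A] (x : ℕ → A) (i : ℕ) :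
    FreeNonUnitalNonAssocAlgebra.lift K x (V K i) = x i := by
  simp [V]

theorem h_T3 (x : ℕ → T3 K) (k : ℕ) :
    (FreeNonUnitalNonAssocAlgebra.lift K x (h K k)).1 = 0 ∧
      (FreeNonUnitalNonAssocAlgebra.lift K x (h K k)).2.1 = 0 := by
  induction k with
  | zero =>
    constructor
    · simp only [h, map_sub, map_mul, lift_V]
      show (0 : K) - 0 = 0
      simp
    · simp only [h, map_sub, map_mul, lift_V]
      show (x 0).2.1 * (x 1).1 * (x 2).1 - (x 0).2.1 * (x 2).1 * (x 1).1 = 0
      ring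
  | succ k ih =>
    constructor
    · simp only [h, map_mul, lift_V]
      rfl
    · simp only [h, map_mul, lift_V, T3.mul_2, ih.2, zero_mul]

theorem g_T3 (k : ℕ) : IsIdentity K (T3 K) (g K k) := by
  intro x
  obtain ⟨h1, h2⟩ := h_T3 x k
  apply T3.ext'
  · simp only [g, map_mul, lift_V]; rfl
  · simp only [g, map_mul, lift_V, T3.mul_2, h1, mul_zero]; rfl
  · simp only [g, map_mul, lift_V, T3.mul_3, h1, h2, mul_zero, add_zero]; rfl

/-- the elements at which `g` does not vanish in the test algebra -/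
noncomputable def wit (N : ℕ) (i : ℕ) : BN K N :=
  if i = 4 then (0, 0, 1, 0) else if i = 0 ∨ i = 1 then (1, 0, 0, 0) else (0, 1, 0, 0)

theorem h_BN (N k : ℕ) : (FreeNonUnitalNonAssocAlgebra.lift K (wit (K := K) N) (h K k)).2.2.1 =
    X ^ (k + 2) := by
  have w0 : (wit (K := K) N 0) = ((1, 0, 0, 0) : K × K × K[X] × K) := by simp [wit]
  have w1 : (wit (K := K) N 1) = ((1, 0, 0, 0) : K × K × K[X] × K) := by simp [wit]
  have w2 : (wit (K := K) N 2) = ((0, 1, 0, 0) : K × K × K[X] × K) := by simp [wit]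
  have w3 : (wit (K := K) N 3) = ((0, 1, 0, 0) : K × K × K[X] × K) := by simp [wit]
  induction k with
  | zero =>
    simp only [h, map_sub, map_mul, lift_V]
    show ((wit (K := K) N 0 * wit N 1) * wit N 2).2.2.1 -
      ((wit (K := K) N 0 * wit N 2) * wit N 1).2.2.1 = _
    simp only [BN.mul_3, BN.mul_1, w0, w1, w2]
    simp
    ring
  | succ k ih =>
    simp only [h, map_mul, lift_V, BN.mul_3, ih, w3]
    simp
    ring

theorem g_BN (k : ℕ) : ¬ IsIdentity K (BN K (k + 2)) (g K k) := by
  intro hh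
  have h1 := hh (wit (k + 2))
  have h2 : (FreeNonUnitalNonAssocAlgebra.lift K (wit (K := K) (k + 2)) (g K k)).2.2.2 = 0 := by
    rw [h1]; rfl
  simp only [g, map_mul, lift_V, BN.mul_4, h_BN] at h2
  have w4 : (wit (K := K) (k + 2) 4) = ((0, 0, 1, 0) : K × K × K[X] × K) := by simp [wit]
  rw [w4] at h2
  simp at h2

end Witness

/-- The three-dimensional algebra has no finite basis of identities. -/
theorem not_finitelyBased (K : Type u) [Field K] [Infinite K] : ¬ FinitelyBased K (T3 K) := by
  rintro ⟨S, hS, hall⟩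
  classical
  let k : ℕ := S.sup fun f => f.coeff.support.sup FreeMagma.length
  refine g_BN k (hall (g K k) (g_T3 k) (BN K (k + 2)) ?_)
  intro f hf
  apply test_algebra (hS f hf)
  intro M hM
  have h1 : M.length ≤ f.coeff.support.sup FreeMagma.length := Finset.le_sup hM
  have h2 : (f.coeff.support.sup FreeMagma.length) ≤ k :=
    Finset.le_sup (f := fun f : FreeNonUnitalNonAssocAlgebra K ℕ =>
      f.coeff.support.sup FreeMagma.length) hf
  omega

/-- Over every infinite field `K` there is a three-dimensional `K`-algebra without a finite basis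
of its polynomial identities. -/
theorem result (K : Type u) [Field K] [Infinite K] :
    ∃ (R : Type u) (_ : NonUnitalNonAssocRing R) (_ : Module K R) (_ : IsScalarTower K R R)
      (_ : SMulCommClass K R R), Module.finrank K R = 3 ∧ ¬ FinitelyBased K R := by
  refine ⟨T3 K, inferInstance, inferInstance, inferInstance, inferInstance, ?_,
    not_finitelyBased K⟩
  have : Module.finrank K (T3 K) = Module.finrank K (K × K × K) := rfl
  rw [this, Module.finrank_prod, Module.finrank_prod, Module.finrank_self]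

end Pool.Agent.Results.MP_c03fb1_al.ThreeDim
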